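import Pool.Agent.N105.LT.Defs
import Pool.Agent.Helper717.LT.P_A_point

/-!
# LG/PT: the pointwise inequality for matrices (project LG of helper105)
-/

set_option autoImplicit false

open MeasureTheory Set Filter Topology Real
open scoped Matrix

namespace Pool.Agent.N409.LG

open LTd Pool.Agent.N105.LT

theorem pol_diag {n : ℕ} (K : ℕ) (c : ℕ → ℝ) (V : Mat n) (e : Fin n → ℝ) (hV : V * Vᵀ = 1)
    (hV' : Vᵀ * V = 1) : Pol K c (V * Matrix.diagonal e * Vᵀ) =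
      V * Matrix.diagonal (fun i => ∑ a ∈ Finset.range K, c a * e i ^ a) * Vᵀ := by
  unfold Pol
  have h : ∀ a ∈ Finset.range K, c a • (V * Matrix.diagonal e * Vᵀ) ^ a =
      V * Matrix.diagonal (fun i => c a * e i ^ a) * Vᵀ := by
    intro a _
    rw [A_trace1_pow V e hV hV' a, ← Matrix.smul_mul, ← Matrix.mul_smul, ← Matrix.diagonal_smul]
    rfl
  rw [Finset.sum_congr rfl h, ← Matrix.sum_mul, ← Matrix.mul_sum]
  congr 2
  ext i j
  by_cases hij : i = j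
  · subst hij
    simp [Matrix.sum_apply]
  · simp [Matrix.sum_apply, hij]

theorem tr2 {n : ℕ} (K : ℕ) (c : ℕ → ℝ) (V R : Mat n) (e : Fin n → ℝ) (hV : V * Vᵀ = 1)
    (hV' : Vᵀ * V = 1) :
    (Pol K c (V * Matrix.diagonal e * Vᵀ) * Pol K c (V * Matrix.diagonal e * Vᵀ) *
      (R * R * R)).trace =
    ∑ i, (∑ a ∈ Finset.range K, c a * e i ^ a) ^ 2 *
      ((Vᵀ * R * V) * (Vᵀ * R * V) * (Vᵀ * R * V)) i i := by
  rw [pol_diag K c V e hV hV']
  set P : Fin n → ℝ := fun i => ∑ a ∈ Finset.range K, c a * e i ^ a with hP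
  have h1 : (Vᵀ * R * V) * (Vᵀ * R * V) * (Vᵀ * R * V) = Vᵀ * (R * R * R) * V := by
    have : (Vᵀ * R * V) * (Vᵀ * R * V) * (Vᵀ * R * V) =
        Vᵀ * (R * (V * Vᵀ) * R * (V * Vᵀ) * R) * V := by
      simp only [Matrix.mul_assoc]
    rw [this, hV, Matrix.mul_one, Matrix.mul_one]
  have h2 : V * Matrix.diagonal P * Vᵀ * (V * Matrix.diagonal P * Vᵀ) * (R * R * R) =
      V * (Matrix.diagonal P * (Vᵀ * V) * Matrix.diagonal P * Vᵀ * (R * R * R)) := by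
    simp only [Matrix.mul_assoc]
  rw [h1, h2, Matrix.trace_mul_comm, hV', Matrix.mul_one, Matrix.diagonal_mul_diagonal]
  have h3 : Matrix.diagonal (fun i => P i * P i) * Vᵀ * (R * R * R) * V =
      Matrix.diagonal (fun i => P i * P i) * (Vᵀ * (R * R * R) * V) := by
    simp only [Matrix.mul_assoc]
  rw [h3, Matrix.trace]
  refine Finset.sum_congr rfl fun i _ => ?_
  rw [Matrix.diag_apply, Matrix.diagonal_mul]
  ring

theorem tr1 {n : ℕ} (K : ℕ) (c : ℕ → ℝ) (V R : Mat n) (e : Fin n → ℝ) (hV : V * Vᵀ = 1)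
    (hV' : Vᵀ * V = 1) (hs : ∀ i j, (Vᵀ * R * V) i j = (Vᵀ * R * V) j i) :
    (R * DPol K c (V * Matrix.diagonal e * Vᵀ) R * R).trace =
    ∑ i, ∑ j, (∑ a ∈ Finset.range K, c a * gs a (e i) (e j)) *
      ((Vᵀ * R * V) i j * ((Vᵀ * R * V) * (Vᵀ * R * V)) i j) := by
  set X : Mat n := Vᵀ * R * V with hX
  unfold DPol
  rw [Matrix.mul_sum, Matrix.sum_mul, Matrix.trace_sum]
  have h1 : ∀ a ∈ Finset.range K, (R * c a • dpow (V * Matrix.diagonal e * Vᵀ) R a * R).trace =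
      ∑ i, ∑ j, ∑ k, X i j * X j k * X k i * (c a * gs a (e j) (e k)) := by
    intro a _
    have h2 := A_trace1 V R e hV hV' a 0
    rw [pow_zero, Matrix.mul_one] at h2
    rw [Matrix.mul_smul, Matrix.smul_mul, Matrix.trace_smul, h2, smul_eq_mul, Finset.mul_sum]
    refine Finset.sum_congr rfl fun i _ => ?_
    rw [Finset.mul_sum]
    refine Finset.sum_congr rfl fun j _ => ?_
    rw [Finset.mul_sum]
    refine Finset.sum_congr rfl fun k _ => ?_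
    rw [pow_zero]
    ring
  rw [Finset.sum_congr rfl h1]
  have h3 : ∑ a ∈ Finset.range K, ∑ i, ∑ j, ∑ k, X i j * X j k * X k i * (c a * gs a (e j) (e k)) =
      ∑ i, ∑ j, ∑ k, X i j * X j k * X k i * (∑ a ∈ Finset.range K, c a * gs a (e j) (e k)) := by
    rw [Finset.sum_comm]
    refine Finset.sum_congr rfl fun i _ => ?_
    rw [Finset.sum_comm]
    refine Finset.sum_congr rfl fun j _ => ?_
    rw [Finset.sum_comm]
    refine Finset.sum_congr rfl fun k _ => ?_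
    rw [Finset.mul_sum]
  rw [h3, Finset.sum_comm]
  refine Finset.sum_congr rfl fun j _ => ?_
  rw [Finset.sum_comm]
  refine Finset.sum_congr rfl fun k _ => ?_
  rw [Matrix.mul_apply, Finset.mul_sum, Finset.mul_sum]
  refine Finset.sum_congr rfl fun i _ => ?_
  rw [hs i j, hs k i]
  ring

/-- LT/PT: the pointwise inequality for matrices. -/
theorem pt
    (hpoly : ∀ (θ ε : ℝ), 0 < θ → θ < 1 → 0 < ε →
      ∃ (K : ℕ) (c : ℕ → ℝ), ∀ s ∈ Icc (-(1 / 2) : ℝ) (1 / 2),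
        ∀ r ∈ Icc (-(1 / 2) : ℝ) (1 / 2),
      |∑ a ∈ Finset.range K, c a * s ^ a - ph θ s| ≤ ε ∧
      |∑ a ∈ Finset.range K, c a * gs a s r + dd θ s r| ≤ ε)
    (hdia : ∀ (n : ℕ) (θ : ℝ), 0 < θ → θ < 1 → ∀ δ : ℝ, 0 < δ →
      ∃ ε : ℝ, 0 < ε ∧ ∀ (K : ℕ) (c : ℕ → ℝ),
      (∀ s ∈ Icc (-(1 / 2) : ℝ) (1 / 2), ∀ r ∈ Icc (-(1 / 2) : ℝ) (1 / 2),
        |∑ a ∈ Finset.range K, c a * s ^ a - ph θ s| ≤ ε ∧
        |∑ a ∈ Finset.range K, c a * gs a s r + dd θ s r| ≤ ε) →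
      ∀ (e : Fin n → ℝ), (∀ i, e i ∈ Icc (-(1 / 2) : ℝ) (1 / 2)) → ∀ X : Mat n, PSD X →
        ∑ i, ∑ j, (∑ a ∈ Finset.range K, c a * gs a (e i) (e j)) * (X i j * (X * X) i j) +
          ∑ i, (∑ a ∈ Finset.range K, c a * e i ^ a) ^ 2 * (X * X * X) i i +
          (θ ^ 2 * (π ^ 2 / 3) - δ) * (X * X * X).trace ≤ 0)
    (n : ℕ) (θ : ℝ) (h0 : 0 < θ) (h1 : θ < 1) (δ : ℝ) (hδ : 0 < δ) :
    ∃ (K : ℕ) (c : ℕ → ℝ), ∀ (B R : Mat n), (∀ i j, B i j = B j i) →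
      PSD ((1 / 2 : ℝ) • 1 + B) → PSD ((1 / 2 : ℝ) • 1 - B) → PSD R →
      (R * DPol K c B R * R).trace + (Pol K c B * Pol K c B * (R * R * R)).trace +
        (θ ^ 2 * (π ^ 2 / 3) - δ) * (R * R * R).trace ≤ 0 := by
  obtain ⟨ε, hε, hd⟩ := hdia n θ h0 h1 δ hδ
  obtain ⟨K, c, hK⟩ := hpoly θ ε h0 h1 hε
  refine ⟨K, c, fun B R hB hB1 hB2 hR => ?_⟩
  obtain ⟨V, e, hV, hV', rfl⟩ := specS hB
  have hXP : PSD (Vᵀ * R * V) := ap_psd R V hR
  have hD : Vᵀ * (V * Matrix.diagonal e * Vᵀ) * V = Matrix.diagonal e := by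
    calc Vᵀ * (V * Matrix.diagonal e * Vᵀ) * V =
        (Vᵀ * V) * Matrix.diagonal e * (Vᵀ * V) := by simp only [Matrix.mul_assoc]
      _ = Matrix.diagonal e := by rw [hV', Matrix.one_mul, Matrix.mul_one]
  have hI : Vᵀ * ((1 / 2 : ℝ) • (1 : Mat n)) * V = (1 / 2 : ℝ) • (1 : Mat n) := by
    rw [Matrix.mul_smul, Matrix.mul_one, Matrix.smul_mul, hV']
  have he : ∀ i, e i ∈ Icc (-(1 / 2) : ℝ) (1 / 2) := by
    intro i
    constructor
    · have h1 := ap_diag _ (ap_psd _ V hB1) i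
      rw [Matrix.mul_add, Matrix.add_mul, hD, hI] at h1
      simp only [Matrix.add_apply, Matrix.smul_apply, Matrix.one_apply_eq,
        Matrix.diagonal_apply_eq, smul_eq_mul, mul_one] at h1
      linarith
    · have h1 := ap_diag _ (ap_psd _ V hB2) i
      rw [Matrix.mul_sub, Matrix.sub_mul, hD, hI] at h1
      simp only [Matrix.sub_apply, Matrix.smul_apply, Matrix.one_apply_eq,
        Matrix.diagonal_apply_eq, smul_eq_mul, mul_one] at h1
      linarith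
  have key := hd K c hK e he (Vᵀ * R * V) hXP
  rw [ap_tr2 V R hV, ← tr1 K c V R e hV hV' hXP.1, ← tr2 K c V R e hV hV'] at key
  exact key

end Pool.Agent.N409.LG
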